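import Mathlib

set_option autoImplicit false

open Finset

namespace Pool.Agent.H20.DS

/-- residues of an integer modulo the elements of a finite set -/
def res (P : Finset ℕ) (k : ℤ) : {x // x ∈ P} → ℤ := fun p => k % ((p : ℕ) : ℤ)

/-- the box of residue vectors vanishing exactly at `Z` -/
noncomputable def boxA (P Z : Finset ℕ) : Finset ({x // x ∈ P} → ℤ) :=
  Fintype.piFinset fun p : {x // x ∈ P} =>
    if (p : ℕ) ∈ Z then ({0} : Finset ℤ) else (Finset.Ico (0 : ℤ) ((p : ℕ) : ℤ)).erase 0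

/-- the box of residue vectors vanishing exactly at `Z` and avoiding `c` outside `Z` -/
noncomputable def boxB (P Z : Finset ℕ) (c : ℤ) : Finset ({x // x ∈ P} → ℤ) :=
  Fintype.piFinset fun p : {x // x ∈ P} =>
    if (p : ℕ) ∈ Z then ({0} : Finset ℤ) else
      ((Finset.Ico (0 : ℤ) ((p : ℕ) : ℤ)).erase 0).erase (c % ((p : ℕ) : ℤ))

/-- product of a finite set, as an integer -/
def cT (T : Finset ℕ) : ℤ := ∏ p ∈ T, (p : ℤ)

noncomputable def covZ (P : Finset ℕ) (g : ℤ) (Z : Finset ℕ) : Finset ({x // x ∈ P} → ℤ) :=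
  Z.powerset.biUnion fun T => boxB P Z (g * cT T)

noncomputable def covSet (P : Finset ℕ) (g : ℤ) : Finset ({x // x ∈ P} → ℤ) :=
  P.powerset.biUnion fun Z => covZ P g Z

theorem boxB_subset (P Z : Finset ℕ) (c : ℤ) : boxB P Z c ⊆ boxA P Z := by
  intro f hf
  rw [boxB, Fintype.mem_piFinset] at hf
  rw [boxA, Fintype.mem_piFinset]
  intro p
  have h := hf p
  by_cases hp : (p : ℕ) ∈ Z
  · rw [if_pos hp] at h ⊢
    exact h
  · rw [if_neg hp] at h ⊢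
    exact Finset.mem_of_mem_erase h

theorem covZ_subset (P : Finset ℕ) (g : ℤ) (Z : Finset ℕ) : covZ P g Z ⊆ boxA P Z := by
  intro f hf
  rw [covZ, Finset.mem_biUnion] at hf
  obtain ⟨T, _, hT⟩ := hf
  exact boxB_subset _ _ _ hT

theorem dvd_cT {T : Finset ℕ} {p : ℕ} (hp : p.Prime) (hT : ∀ t ∈ T, t.Prime)
    (h : (p : ℤ) ∣ cT T) : p ∈ T := by
  have hp' : Prime (p : ℤ) := Nat.prime_iff_prime_int.mp hp
  obtain ⟨t, ht, htd⟩ := (hp'.dvd_finsetProd_iff _).mp h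
  have h1 : p ∣ t := by exact_mod_cast htd
  rcases (Nat.dvd_prime (hT t ht)).mp h1 with h2 | h2
  · exact absurd h2 hp.one_lt.ne'
  · rw [h2]; exact ht

theorem mem_covSet {P : Finset ℕ} (hP : ∀ p ∈ P, p.Prime) (g : ℤ) {T : Finset ℕ} (hT : T ⊆ P)
    (a : ℤ) (ha : ∀ p ∈ P, p ∉ T → ¬ (p : ℤ) ∣ a) : res P ((a + g) * cT T) ∈ covSet P g := by
  classical
  set k := (a + g) * cT T with hk
  rw [covSet, Finset.mem_biUnion]
  refine ⟨P.filter (fun q : ℕ => (q : ℤ) ∣ k), Finset.mem_powerset.mpr (Finset.filter_subset _ _), ?_⟩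
  rw [covZ, Finset.mem_biUnion]
  refine ⟨T, ?_, ?_⟩
  · rw [Finset.mem_powerset]
    intro p hp
    rw [Finset.mem_filter]
    refine ⟨hT hp, ?_⟩
    exact Dvd.dvd.mul_left (Finset.dvd_prod_of_mem (fun p : ℕ => (p : ℤ)) hp) _
  · rw [boxB, Fintype.mem_piFinset]
    intro p
    have hpp := hP p.1 p.2
    by_cases hp : (p : ℕ) ∈ P.filter (fun q : ℕ => (q : ℤ) ∣ k)
    · rw [if_pos hp, Finset.mem_singleton]
      exact Int.emod_eq_zero_of_dvd (Finset.mem_filter.mp hp).2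
    · rw [if_neg hp]
      have hnd : ¬ ((p : ℕ) : ℤ) ∣ k := fun h => hp (Finset.mem_filter.mpr ⟨p.2, h⟩)
      have hpT : (p : ℕ) ∉ T := by
        intro h
        exact hnd (Dvd.dvd.mul_left (Finset.dvd_prod_of_mem (fun p : ℕ => (p : ℤ)) h) _)
      have hp0 : (0 : ℤ) < ((p : ℕ) : ℤ) := by exact_mod_cast hpp.pos
      rw [Finset.mem_erase, Finset.mem_erase, Finset.mem_Ico]
      refine ⟨?_, ?_, Int.emod_nonneg _ hp0.ne', Int.emod_lt_of_pos _ hp0⟩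
      · intro h
        have h1 : ((p : ℕ) : ℤ) ∣ k - g * cT T := Int.ModEq.dvd (Int.ModEq.symm h)
        have h2 : k - g * cT T = a * cT T := by rw [hk]; ring
        rw [h2] at h1
        rcases (Nat.prime_iff_prime_int.mp hpp).dvd_or_dvd h1 with h3 | h3
        · exact ha p.1 p.2 hpT h3
        · exact hpT (dvd_cT hpp (fun t ht => hP t (hT ht)) h3)
      · intro h
        exact hnd (Int.dvd_of_emod_eq_zero h)

theorem card_boxA {P Z : Finset ℕ} (hP : ∀ p ∈ P, p.Prime) (hZ : Z ⊆ P) :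
    ((boxA P Z).card : ℝ) = ∏ p ∈ P \ Z, ((p : ℝ) - 1) := by
  classical
  rw [boxA, Fintype.card_piFinset, Nat.cast_prod]
  have h1 : ∏ p : {x // x ∈ P}, (((if (p : ℕ) ∈ Z then ({0} : Finset ℤ) else
      (Finset.Ico (0 : ℤ) ((p : ℕ) : ℤ)).erase 0).card : ℕ) : ℝ) =
      ∏ p : {x // x ∈ P}, (fun n : ℕ => if n ∈ Z then (1 : ℝ) else (n : ℝ) - 1) (p : ℕ) := by
    refine Finset.prod_congr rfl fun p _ => ?_
    have hpp := hP p.1 p.2
    have hp0 : (0 : ℤ) < ((p : ℕ) : ℤ) := by exact_mod_cast hpp.pos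
    by_cases hp : (p : ℕ) ∈ Z
    · simp only [if_pos hp, Finset.card_singleton, Nat.cast_one]
    · simp only [if_neg hp]
      rw [Finset.card_erase_of_mem (Finset.mem_Ico.mpr ⟨le_rfl, hp0⟩), Int.card_Ico]
      rw [sub_zero, Int.toNat_natCast, Nat.cast_sub hpp.one_lt.le, Nat.cast_one]
  rw [h1, Finset.prod_coe_sort P (fun n : ℕ => if n ∈ Z then (1 : ℝ) else (n : ℝ) - 1),
    ← Finset.prod_sdiff hZ]
  have h2 : ∏ n ∈ Z, (if n ∈ Z then (1 : ℝ) else (n : ℝ) - 1) = 1 :=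
    Finset.prod_eq_one fun n hn => if_pos hn
  rw [h2, mul_one]
  refine Finset.prod_congr rfl fun n hn => ?_
  rw [if_neg (Finset.mem_sdiff.mp hn).2]

theorem card_boxB {P Z : Finset ℕ} (hP : ∀ p ∈ P, p.Prime) (hZ : Z ⊆ P) {c : ℤ}
    (hc : ∀ p ∈ P, p ∉ Z → ¬ (p : ℤ) ∣ c) :
    ((boxB P Z c).card : ℝ) = ∏ p ∈ P \ Z, ((p : ℝ) - 2) := by
  classical
  rw [boxB, Fintype.card_piFinset, Nat.cast_prod]
  have h1 : ∏ p : {x // x ∈ P}, (((if (p : ℕ) ∈ Z then ({0} : Finset ℤ) else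
      ((Finset.Ico (0 : ℤ) ((p : ℕ) : ℤ)).erase 0).erase (c % ((p : ℕ) : ℤ))).card : ℕ) : ℝ) =
      ∏ p : {x // x ∈ P}, (fun n : ℕ => if n ∈ Z then (1 : ℝ) else (n : ℝ) - 2) (p : ℕ) := by
    refine Finset.prod_congr rfl fun p _ => ?_
    have hpp := hP p.1 p.2
    have hp0 : (0 : ℤ) < ((p : ℕ) : ℤ) := by exact_mod_cast hpp.pos
    by_cases hp : (p : ℕ) ∈ Z
    · simp only [if_pos hp, Finset.card_singleton, Nat.cast_one]
    · simp only [if_neg hp]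
      have hne : c % ((p : ℕ) : ℤ) ≠ 0 := fun h => hc p.1 p.2 hp (Int.dvd_of_emod_eq_zero h)
      rw [Finset.card_erase_of_mem (Finset.mem_erase.mpr ⟨hne, Finset.mem_Ico.mpr
        ⟨Int.emod_nonneg _ hp0.ne', Int.emod_lt_of_pos _ hp0⟩⟩),
        Finset.card_erase_of_mem (Finset.mem_Ico.mpr ⟨le_rfl, hp0⟩), Int.card_Ico]
      rw [sub_zero, Int.toNat_natCast, Nat.sub_sub, Nat.cast_sub hpp.two_le]
      norm_num
  rw [h1, Finset.prod_coe_sort P (fun n : ℕ => if n ∈ Z then (1 : ℝ) else (n : ℝ) - 2),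
    ← Finset.prod_sdiff hZ]
  have h2 : ∏ n ∈ Z, (if n ∈ Z then (1 : ℝ) else (n : ℝ) - 2) = 1 :=
    Finset.prod_eq_one fun n hn => if_pos hn
  rw [h2, mul_one]
  refine Finset.prod_congr rfl fun n hn => ?_
  rw [if_neg (Finset.mem_sdiff.mp hn).2]

theorem card_covZ {P Z : Finset ℕ} (hP : ∀ p ∈ P, p.Prime) (hZ : Z ⊆ P) {g : ℤ}
    (hg : ∀ p ∈ P, ¬ (p : ℤ) ∣ g) :
    ((covZ P g Z).card : ℝ) ≤ (∏ _p ∈ Z, Real.sqrt 2) *
      ∏ p ∈ P \ Z, Real.sqrt (((p : ℝ) - 1) * ((p : ℝ) - 2)) := by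
  classical
  have hP2 : ∀ p ∈ P, (2 : ℝ) ≤ p := fun p hp => by exact_mod_cast (hP p hp).two_le
  have h1 : ((covZ P g Z).card : ℝ) ≤ ∏ p ∈ P \ Z, ((p : ℝ) - 1) := by
    rw [← card_boxA hP hZ]
    exact_mod_cast Finset.card_le_card (covZ_subset P g Z)
  have h2 : ((covZ P g Z).card : ℝ) ≤ 2 ^ Z.card * ∏ p ∈ P \ Z, ((p : ℝ) - 2) := by
    have h3 : ((covZ P g Z).card : ℝ) ≤ ∑ T ∈ Z.powerset, ((boxB P Z (g * cT T)).card : ℝ) := by
      rw [← Nat.cast_sum]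
      exact_mod_cast Finset.card_biUnion_le
    refine h3.trans (le_of_eq ?_)
    have h4 : ∀ T ∈ Z.powerset, ((boxB P Z (g * cT T)).card : ℝ) =
        ∏ p ∈ P \ Z, ((p : ℝ) - 2) := by
      intro T hT
      rw [Finset.mem_powerset] at hT
      apply card_boxB hP hZ
      intro p hp hpZ hd
      rcases (Nat.prime_iff_prime_int.mp (hP p hp)).dvd_or_dvd hd with h3 | h3
      · exact hg p hp h3
      · exact hpZ (hT (dvd_cT (hP p hp) (fun t ht => hP t (hZ (hT ht))) h3))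
    rw [Finset.sum_congr rfl h4, Finset.sum_const, Finset.card_powerset, nsmul_eq_mul]
    push_cast
    ring
  have h0 : (0 : ℝ) ≤ ((covZ P g Z).card : ℝ) := Nat.cast_nonneg _
  have hA0 : 0 ≤ ∏ p ∈ P \ Z, ((p : ℝ) - 1) :=
    Finset.prod_nonneg fun p hp => by linarith [hP2 p (Finset.mem_sdiff.mp hp).1]
  have h5 : ((covZ P g Z).card : ℝ) ^ 2 ≤
      (∏ p ∈ P \ Z, ((p : ℝ) - 1)) * (2 ^ Z.card * ∏ p ∈ P \ Z, ((p : ℝ) - 2)) := by
    rw [sq]
    exact mul_le_mul h1 h2 h0 hA0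
  have h6 : ((∏ _p ∈ Z, Real.sqrt 2) *
      ∏ p ∈ P \ Z, Real.sqrt (((p : ℝ) - 1) * ((p : ℝ) - 2))) ^ 2 =
      (∏ p ∈ P \ Z, ((p : ℝ) - 1)) * (2 ^ Z.card * ∏ p ∈ P \ Z, ((p : ℝ) - 2)) := by
    rw [mul_pow, ← Finset.prod_pow, ← Finset.prod_pow, Real.sq_sqrt (by norm_num : (0:ℝ) ≤ 2),
      Finset.prod_const]
    have h7 : ∏ p ∈ P \ Z, Real.sqrt (((p : ℝ) - 1) * ((p : ℝ) - 2)) ^ 2 =
        ∏ p ∈ P \ Z, (((p : ℝ) - 1) * ((p : ℝ) - 2)) := by
      refine Finset.prod_congr rfl fun p hp => ?_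
      have := hP2 p (Finset.mem_sdiff.mp hp).1
      exact Real.sq_sqrt (mul_nonneg (by linarith) (by linarith))
    rw [h7, Finset.prod_mul_distrib]
    ring
  have h8 : 0 ≤ (∏ _p ∈ Z, Real.sqrt 2) *
      ∏ p ∈ P \ Z, Real.sqrt (((p : ℝ) - 1) * ((p : ℝ) - 2)) :=
    mul_nonneg (Finset.prod_nonneg fun _ _ => Real.sqrt_nonneg _)
      (Finset.prod_nonneg fun _ _ => Real.sqrt_nonneg _)
  rw [← h6] at h5
  exact le_of_sq_le_sq h5 h8

theorem card_covSet {P : Finset ℕ} (hP : ∀ p ∈ P, p.Prime) {g : ℤ}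
    (hg : ∀ p ∈ P, ¬ (p : ℤ) ∣ g) :
    ((covSet P g).card : ℝ) ≤ ∏ p ∈ P, ((p : ℝ) - (3 / 2 - Real.sqrt 2)) := by
  classical
  have h1 : ((covSet P g).card : ℝ) ≤ ∑ Z ∈ P.powerset, ((covZ P g Z).card : ℝ) := by
    rw [← Nat.cast_sum]
    exact_mod_cast Finset.card_biUnion_le
  have h2 : ∑ Z ∈ P.powerset, ((covZ P g Z).card : ℝ) ≤
      ∑ Z ∈ P.powerset, (∏ _p ∈ Z, Real.sqrt 2) *
      ∏ p ∈ P \ Z, Real.sqrt (((p : ℝ) - 1) * ((p : ℝ) - 2)) :=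
    Finset.sum_le_sum fun Z hZ => card_covZ hP (Finset.mem_powerset.mp hZ) hg
  rw [← Finset.prod_add] at h2
  refine h1.trans (h2.trans ?_)
  apply Finset.prod_le_prod
  · intro p _
    positivity
  · intro p hp
    have h3 : (2 : ℝ) ≤ p := by exact_mod_cast (hP p hp).two_le
    have h4 : Real.sqrt (((p : ℝ) - 1) * ((p : ℝ) - 2)) ≤ (p : ℝ) - 3 / 2 := by
      rw [Real.sqrt_le_left (by linarith)]
      nlinarith
    linarith

/-- the residue vector determines an integer in `[0, N)` -/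
theorem res_inj {P : Finset ℕ} (hP : ∀ p ∈ P, p.Prime) {r s : ℤ} (hr : 0 ≤ r) (hr' : r < cT P)
    (hs : 0 ≤ s) (hs' : s < cT P) (h : res P r = res P s) : r = s := by
  have h1 : cT P ∣ r - s := by
    apply Finset.prod_dvd_of_coprime
    · intro p hp q hq hpq
      have := (Nat.coprime_primes (hP p hp) (hP q hq)).mpr hpq
      exact Nat.isCoprime_iff_coprime.mpr this
    · intro p hp
      have h2 := congrFun h ⟨p, hp⟩
      exact Int.ModEq.dvd (Int.ModEq.symm h2)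
  have h3 : r ≡ s [ZMOD cT P] := (Int.modEq_iff_dvd.mpr h1).symm
  have h4 : r % cT P = s % cT P := h3
  rwa [Int.emod_eq_of_lt hr hr', Int.emod_eq_of_lt hs hs'] at h4

theorem res_emod {P : Finset ℕ} (k : ℤ) : res P (k % cT P) = res P k := by
  funext p
  have h1 : ((p : ℕ) : ℤ) ∣ cT P := Finset.dvd_prod_of_mem (fun p : ℕ => (p : ℤ)) p.2
  exact Int.emod_emod_of_dvd k h1

end Pool.Agent.H20.DS
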