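import Mathlib
import Pool.Agent.Lib.Helper20.DS.Count

set_option autoImplicit false

open Finset MeasureTheory Filter

namespace Pool.Agent.H20.DS

theorem cT_pos {T : Finset ℕ} (hT : ∀ t ∈ T, t.Prime) : 0 < cT T :=
  Finset.prod_pos fun t ht => by exact_mod_cast (hT t ht).pos

/-- the union of the sets of one block -/
def U (c : ℝ) (P : Finset ℕ) (γ : ℝ) : Set ℝ :=
  {x : ℝ | x ∈ Set.Icc (0 : ℝ) 1 ∧ ∃ T ⊆ P, ∃ p : ℤ, IsCoprime p (cT (P \ T)) ∧
    |(cT (P \ T) : ℝ) * x - p - γ| ≤ c * ((cT (P \ T) : ℝ) / (cT P : ℝ))}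

/-- covered integers in one period -/
noncomputable def RR (P : Finset ℕ) (g : ℤ) : Finset ℤ := by
  classical
  exact (Finset.Ico (0 : ℤ) (cT P)).filter (fun r => res P r ∈ covSet P g)

theorem card_RR {P : Finset ℕ} (hP : ∀ p ∈ P, p.Prime) (g : ℤ) :
    (RR P g).card ≤ (covSet P g).card := by
  classical
  apply Finset.card_le_card_of_injOn (res P)
  · intro r hr
    have hr' : r ∈ RR P g := hr
    rw [RR, Finset.mem_filter] at hr'
    exact hr'.2
  · intro r hr s hs h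
    have hr' : r ∈ RR P g := hr
    have hs' : s ∈ RR P g := hs
    rw [RR, Finset.mem_filter, Finset.mem_Ico] at hr' hs'
    exact res_inj hP hr'.1.1 hr'.1.2 hs'.1.1 hs'.1.2 h

theorem U_subset {P : Finset ℕ} (hP : ∀ p ∈ P, p.Prime) {g : ℤ} {v : ℕ} (hv : 1 ≤ v)
    (hvP : ∀ p ∈ P, ¬ (p : ℤ) ∣ (v : ℤ)) :
    U 2 P ((g : ℝ) / v) ⊆ ⋃ j ∈ Finset.Icc (-(2 * v : ℤ)) (3 * v), ⋃ r ∈ RR P g,
      Set.Icc ((((j : ℝ) * (cT P : ℝ) + r) / (v * (cT P : ℝ))) - 2 / (cT P : ℝ))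
        ((((j : ℝ) * (cT P : ℝ) + r) / (v * (cT P : ℝ))) + 2 / (cT P : ℝ)) := by
  classical
  intro x hx
  obtain ⟨⟨hx0, hx1⟩, T, hT, p, hp, hpx⟩ := hx
  have hq : 0 < cT (P \ T) := cT_pos fun t ht => hP t (Finset.mem_sdiff.mp ht).1
  have hc : 0 < cT T := cT_pos fun t ht => hP t (hT ht)
  have hN : 0 < cT P := cT_pos hP
  have hqc : cT (P \ T) * cT T = cT P := Finset.prod_sdiff hT
  set q := cT (P \ T) with hqdef
  set N := cT P with hNdef
  have hqR : (0 : ℝ) < (q : ℝ) := by exact_mod_cast hq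
  have hcR : (0 : ℝ) < (cT T : ℝ) := by exact_mod_cast hc
  have hNR : (0 : ℝ) < (N : ℝ) := by exact_mod_cast hN
  have hvR : (0 : ℝ) < (v : ℝ) := by exact_mod_cast hv
  have hqcR : (q : ℝ) * (cT T : ℝ) = N := by exact_mod_cast hqc
  set k : ℤ := (p * v + g) * cT T with hk
  have hcov : res P k ∈ covSet P g := by
    apply mem_covSet hP g hT
    intro l hl hlT hd
    have hlp := Nat.prime_iff_prime_int.mp (hP l hl)
    rcases hlp.dvd_or_dvd hd with h | h
    · have h1 : (l : ℤ) ∣ q := Finset.dvd_prod_of_mem (fun p : ℕ => (p : ℤ))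
        (Finset.mem_sdiff.mpr ⟨hl, hlT⟩)
      exact hlp.not_isUnit (hp.isUnit_of_dvd' h h1)
    · exact hvP l hl h
  have hkx : |x - (k : ℝ) / (v * N)| ≤ 2 / N := by
    have h1 : x - (k : ℝ) / (v * N) = (q * x - p - g / v) / q := by
      rw [hk, ← hqcR]
      push_cast
      field_simp
      ring
    rw [h1, abs_div, abs_of_pos hqR, div_le_iff₀ hqR]
    calc |(q : ℝ) * x - p - g / v| ≤ 2 * (q / N) := hpx
      _ = 2 / N * q := by ring
  have habs := abs_le.mp hkx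
  have hk1 : (-(2 * v : ℤ)) ≤ k := by
    have h1 : -(2 / (N : ℝ)) ≤ (k : ℝ) / (v * N) := by linarith [habs.2]
    have h2 : -(2 * v : ℝ) ≤ k := by
      rw [le_div_iff₀ (by positivity)] at h1
      calc -(2 * v : ℝ) = -(2 / (N : ℝ)) * (v * N) := by field_simp
        _ ≤ k := h1
    exact_mod_cast h2
  have hk2 : k ≤ v * N + 2 * v := by
    have h1 : (k : ℝ) / (v * N) ≤ 1 + 2 / (N : ℝ) := by linarith [habs.1]
    have h2 : (k : ℝ) ≤ v * N + 2 * v := by
      rw [div_le_iff₀ (by positivity)] at h1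
      calc (k : ℝ) ≤ (1 + 2 / (N : ℝ)) * (v * N) := h1
        _ = v * N + 2 * v := by field_simp
    exact_mod_cast h2
  have hkdiv : N * (k / N) + k % N = k := Int.mul_ediv_add_emod k N
  have hr0 : 0 ≤ k % N := Int.emod_nonneg _ hN.ne'
  have hr1 : k % N < N := Int.emod_lt_of_pos _ hN
  rw [Set.mem_iUnion₂]
  refine ⟨k / N, ?_, ?_⟩
  · rw [Finset.mem_Icc]
    constructor
    · rw [Int.le_ediv_iff_mul_le hN]
      nlinarith
    · have h1 : k / N ≤ (v * N + 2 * v) / N := Int.ediv_le_ediv hN hk2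
      have h2 : (v * N + 2 * v) / N ≤ 3 * (v : ℤ) := by
        apply Int.ediv_le_of_le_mul hN
        nlinarith
      linarith
  · rw [Set.mem_iUnion₂]
    refine ⟨k % N, ?_, ?_⟩
    · rw [RR, Finset.mem_filter, Finset.mem_Ico]
      refine ⟨⟨hr0, hr1⟩, ?_⟩
      rw [res_emod]
      exact hcov
    · have h1 : ((k / N : ℤ) : ℝ) * (N : ℝ) + ((k % N : ℤ) : ℝ) = k := by
        rw [mul_comm]
        exact_mod_cast hkdiv
      rw [h1, Set.mem_Icc]
      constructor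
      · linarith [habs.1]
      · linarith [habs.2]

theorem volume_U {P : Finset ℕ} (hP : ∀ p ∈ P, p.Prime) {g : ℤ} {v : ℕ} (hv : 1 ≤ v)
    (hvP : ∀ p ∈ P, ¬ (p : ℤ) ∣ (v : ℤ)) (hg : ∀ p ∈ P, ¬ (p : ℤ) ∣ g) :
    volume (U 2 P ((g : ℝ) / v)) ≤ ENNReal.ofReal ((24 * v) *
      ∏ p ∈ P, (1 - (3 / 2 - Real.sqrt 2) / (p : ℝ))) := by
  classical
  have hN : 0 < cT P := cT_pos hP
  have hNR : (0 : ℝ) < (cT P : ℝ) := by exact_mod_cast hN
  have hvR : (1 : ℝ) ≤ (v : ℝ) := by exact_mod_cast hv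
  calc volume (U 2 P ((g : ℝ) / v)) ≤ volume (⋃ j ∈ Finset.Icc (-(2 * v : ℤ)) (3 * v), ⋃ r ∈ RR P g,
      Set.Icc ((((j : ℝ) * (cT P : ℝ) + r) / (v * (cT P : ℝ))) - 2 / (cT P : ℝ))
        ((((j : ℝ) * (cT P : ℝ) + r) / (v * (cT P : ℝ))) + 2 / (cT P : ℝ))) :=
        measure_mono (U_subset hP hv hvP)
    _ ≤ ∑ j ∈ Finset.Icc (-(2 * v : ℤ)) (3 * v), volume (⋃ r ∈ RR P g,
      Set.Icc ((((j : ℝ) * (cT P : ℝ) + r) / (v * (cT P : ℝ))) - 2 / (cT P : ℝ))
        ((((j : ℝ) * (cT P : ℝ) + r) / (v * (cT P : ℝ))) + 2 / (cT P : ℝ))) :=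
        measure_biUnion_finset_le _ _
    _ ≤ ∑ j ∈ Finset.Icc (-(2 * v : ℤ)) (3 * v), ∑ r ∈ RR P g, volume (
      Set.Icc ((((j : ℝ) * (cT P : ℝ) + r) / (v * (cT P : ℝ))) - 2 / (cT P : ℝ))
        ((((j : ℝ) * (cT P : ℝ) + r) / (v * (cT P : ℝ))) + 2 / (cT P : ℝ))) :=
        Finset.sum_le_sum fun j _ => measure_biUnion_finset_le _ _
    _ = ∑ j ∈ Finset.Icc (-(2 * v : ℤ)) (3 * v), ∑ r ∈ RR P g, ENNReal.ofReal (4 / (cT P : ℝ)) := by
        refine Finset.sum_congr rfl fun j _ => Finset.sum_congr rfl fun r _ => ?_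
        rw [Real.volume_Icc]
        congr 1
        ring
    _ = ENNReal.ofReal (((Finset.Icc (-(2 * v : ℤ)) (3 * v)).card : ℝ) * (((RR P g).card : ℝ) *
        (4 / (cT P : ℝ)))) := by
        rw [Finset.sum_const, Finset.sum_const, ENNReal.ofReal_mul (by positivity),
          ENNReal.ofReal_mul (by positivity), nsmul_eq_mul, nsmul_eq_mul,
          ENNReal.ofReal_natCast, ENNReal.ofReal_natCast]
    _ ≤ _ := by
        apply ENNReal.ofReal_le_ofReal
        have h1 : ((Finset.Icc (-(2 * v : ℤ)) (3 * v)).card : ℝ) ≤ 6 * v := by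
          rw [Int.card_Icc]
          have h2 : ((3 * (v : ℤ) + 1 - -(2 * (v : ℤ))).toNat : ℤ) ≤ 6 * v := by
            rw [Int.toNat_of_nonneg (by omega)]
            have : (1 : ℤ) ≤ v := by exact_mod_cast hv
            linarith
          exact_mod_cast h2
        have h3 : ((RR P g).card : ℝ) ≤ ∏ p ∈ P, ((p : ℝ) - (3 / 2 - Real.sqrt 2)) :=
          le_trans (by exact_mod_cast card_RR hP g) (card_covSet hP hg)
        have h4 : ∏ p ∈ P, ((p : ℝ) - (3 / 2 - Real.sqrt 2)) =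
            (cT P : ℝ) * ∏ p ∈ P, (1 - (3 / 2 - Real.sqrt 2) / (p : ℝ)) := by
          rw [cT, Int.cast_prod, ← Finset.prod_mul_distrib]
          refine Finset.prod_congr rfl fun p hp => ?_
          have : (p : ℝ) ≠ 0 := by exact_mod_cast (hP p hp).ne_zero
          push_cast
          field_simp
        calc ((Finset.Icc (-(2 * v : ℤ)) (3 * v)).card : ℝ) * (((RR P g).card : ℝ) *
            (4 / (cT P : ℝ))) ≤ (6 * v) * ((∏ p ∈ P, ((p : ℝ) - (3 / 2 - Real.sqrt 2))) *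
            (4 / (cT P : ℝ))) := by
              apply mul_le_mul h1 _ (by positivity) (by positivity)
              exact mul_le_mul_of_nonneg_right h3 (by positivity)
          _ = _ := by
              rw [h4]
              field_simp
              ring

theorem exp_bound {P : Finset ℕ} (hP : ∀ p ∈ P, p.Prime) :
    ∏ p ∈ P, (1 - (3 / 2 - Real.sqrt 2) / (p : ℝ)) ≤
      Real.exp (-((3 / 2 - Real.sqrt 2) * ∑ p ∈ P, 1 / (p : ℝ))) := by
  have hs : Real.sqrt 2 < 3 / 2 := by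
    rw [Real.sqrt_lt' (by norm_num)]
    norm_num
  have hs0 : 0 ≤ Real.sqrt 2 := Real.sqrt_nonneg 2
  rw [Finset.mul_sum, ← Finset.sum_neg_distrib, Real.exp_sum]
  apply Finset.prod_le_prod
  · intro p hp
    have h1 : (2 : ℝ) ≤ p := by exact_mod_cast (hP p hp).two_le
    have h2 : (3 / 2 - Real.sqrt 2) / (p : ℝ) ≤ 1 := by
      rw [div_le_one (by linarith)]
      linarith
    linarith
  · intro p hp
    have h1 := Real.add_one_le_exp (-((3 / 2 - Real.sqrt 2) * (1 / (p : ℝ))))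
    calc (1 - (3 / 2 - Real.sqrt 2) / (p : ℝ)) = -((3 / 2 - Real.sqrt 2) * (1 / (p : ℝ))) + 1 := by
          ring
      _ ≤ _ := h1

end Pool.Agent.H20.DS
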