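import Mathlib
import Pool.Agent.Lib.Helper20.DS.Block

set_option autoImplicit false

open Finset MeasureTheory Filter

namespace Pool.Agent.H20.DS

theorem kap_pos : (0 : ℝ) < 3 / 2 - Real.sqrt 2 := by
  have hs : Real.sqrt 2 < 3 / 2 := by
    rw [Real.sqrt_lt' (by norm_num)]
    norm_num
  linarith

theorem exists_next (n : ℕ) (L : ℝ) : ∃ m, n < m ∧
    L ≤ ∑ p ∈ (Finset.Ico n m).filter Nat.Prime, 1 / (p : ℝ) := by
  classical
  have h1 : ∀ k : ℕ, 0 ≤ Set.indicator {p : ℕ | p.Prime} (fun n : ℕ => (1 : ℝ) / n) k := by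
    intro k
    apply Set.indicator_nonneg
    intro x _
    positivity
  have h2 := (not_summable_iff_tendsto_nat_atTop_of_nonneg h1).mp not_summable_one_div_on_primes
  obtain ⟨m, hm, hmn⟩ := ((h2.eventually_ge_atTop (L + ∑ i ∈ Finset.range n,
    Set.indicator {p : ℕ | p.Prime} (fun n : ℕ => (1 : ℝ) / n) i)).and
    (eventually_gt_atTop n)).exists
  refine ⟨m, hmn, ?_⟩
  have h3 := Finset.sum_range_add_sum_Ico
    (fun i => Set.indicator {p : ℕ | p.Prime} (fun n : ℕ => (1 : ℝ) / n) i) hmn.le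
  have h4 : ∑ p ∈ (Finset.Ico n m).filter Nat.Prime, 1 / (p : ℝ) =
      ∑ i ∈ Finset.Ico n m, Set.indicator {p : ℕ | p.Prime} (fun n : ℕ => (1 : ℝ) / n) i := by
    rw [Finset.sum_filter]
    refine Finset.sum_congr rfl fun i _ => ?_
    rw [Set.indicator_apply]
    rfl
  rw [h4]
  linarith

theorem exists_seq : ∃ a : ℕ → ℕ, StrictMono a ∧ ∀ j : ℕ, (2 * j + 1 : ℝ) / (3 / 2 - Real.sqrt 2) ≤
    ∑ p ∈ (Finset.Ico (a j) (a (j + 1))).filter Nat.Prime, 1 / (p : ℝ) := by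
  choose f hf1 hf2 using exists_next
  refine ⟨fun j => Nat.rec 0 (fun j aj => f aj ((2 * j + 1 : ℝ) / (3 / 2 - Real.sqrt 2))) j,
    ?_, ?_⟩
  · apply strictMono_nat_of_lt_succ
    intro j
    exact hf1 _ _
  · intro j
    exact hf2 _ _

/-- the thresholds -/
noncomputable def a : ℕ → ℕ := exists_seq.choose

theorem a_mono : StrictMono a := exists_seq.choose_spec.1

/-- the blocks of primes -/
noncomputable def PP (j : ℕ) : Finset ℕ := (Finset.Ico (a j) (a (j + 1))).filter Nat.Prime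

theorem PP_prime (j : ℕ) : ∀ p ∈ PP j, p.Prime := fun _ hp => (Finset.mem_filter.mp hp).2

theorem PP_sum (j : ℕ) : (2 * j + 1 : ℝ) ≤ (3 / 2 - Real.sqrt 2) * ∑ p ∈ PP j, 1 / (p : ℝ) := by
  have h := exists_seq.choose_spec.2 j
  rw [div_le_iff₀ kap_pos] at h
  rw [mul_comm (3 / 2 - Real.sqrt 2)]
  exact h

theorem PP_ge {j p : ℕ} (hp : p ∈ PP j) : j ≤ p :=
  (a_mono.le_apply (x := j)).trans (Finset.mem_Ico.mp (Finset.mem_filter.mp hp).1).1

theorem PP_disj {i j p : ℕ} (hi : p ∈ PP i) (hj : p ∈ PP j) : i = j := by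
  have h1 := Finset.mem_Ico.mp (Finset.mem_filter.mp hi).1
  have h2 := Finset.mem_Ico.mp (Finset.mem_filter.mp hj).1
  have h3 : i < j + 1 := a_mono.lt_iff_lt.mp (h1.1.trans_lt h2.2)
  have h4 : j < i + 1 := a_mono.lt_iff_lt.mp (h2.1.trans_lt h1.2)
  omega

/-- the moduli of the blocks -/
noncomputable def NN (j : ℕ) : ℕ := ∏ p ∈ PP j, p

theorem NN_cast (j : ℕ) : cT (PP j) = (NN j : ℤ) := by
  rw [cT, NN]
  push_cast
  rfl

theorem PP_nonempty (j : ℕ) : (PP j).Nonempty := by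
  rw [Finset.nonempty_iff_ne_empty]
  intro h
  have h1 := PP_sum j
  rw [h, Finset.sum_empty, mul_zero] at h1
  have : (0 : ℝ) ≤ j := Nat.cast_nonneg j
  linarith

theorem NN_pos (j : ℕ) : 0 < NN j := Finset.prod_pos fun p hp => (PP_prime j p hp).pos

theorem two_le_NN (j : ℕ) : 2 ≤ NN j := by
  obtain ⟨p, hp⟩ := PP_nonempty j
  exact (PP_prime j p hp).two_le.trans (Nat.le_of_dvd (NN_pos j) (Finset.dvd_prod_of_mem _ hp))

theorem prime_mem {j l : ℕ} (hl : l.Prime) (h : l ∣ NN j) : l ∈ PP j := by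
  apply dvd_cT hl (PP_prime j)
  rw [NN_cast]
  exact_mod_cast h

theorem div_block {i j q : ℕ} (hq : q ≠ 1) (hi : q ∣ NN i) (hj : q ∣ NN j) : i = j := by
  have h1 := Nat.minFac_prime hq
  have h2 := Nat.minFac_dvd q
  exact PP_disj (prime_mem h1 (h2.trans hi)) (prime_mem h1 (h2.trans hj))

theorem div_repr {j q : ℕ} (hq : q ∣ NN j) : ∃ T ⊆ PP j, cT (PP j \ T) = (q : ℤ) := by
  classical
  refine ⟨(PP j).filter fun p => ¬ p ∣ q, Finset.filter_subset _ _, ?_⟩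
  have h1 : PP j \ ((PP j).filter fun p => ¬ p ∣ q) = (PP j).filter fun p => p ∣ q := by
    ext p
    simp only [Finset.mem_sdiff, Finset.mem_filter, not_and, not_not]
    constructor
    · rintro ⟨h2, h3⟩
      exact ⟨h2, h3 h2⟩
    · rintro ⟨h2, h3⟩
      exact ⟨h2, fun _ => h3⟩
  rw [h1]
  have h2 : cT ((PP j).filter fun p => p ∣ q) = ((∏ p ∈ (PP j).filter fun p => p ∣ q, p : ℕ) : ℤ) := by
    rw [cT]
    push_cast
    rfl
  rw [h2]
  congr 1
  have hcop : Nat.Coprime q (∏ p ∈ (PP j).filter fun p => ¬ p ∣ q, p) := by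
    apply Nat.Coprime.prod_right
    intro p hp
    rw [Finset.mem_filter] at hp
    exact ((Nat.Prime.coprime_iff_not_dvd (PP_prime j p hp.1)).mpr hp.2).symm
  apply Nat.dvd_antisymm
  · apply Finset.prod_primes_dvd
    · intro p hp
      exact (PP_prime j p (Finset.mem_filter.mp hp).1).prime
    · intro p hp
      exact (Finset.mem_filter.mp hp).2
  · apply hcop.dvd_of_dvd_mul_right
    rw [Finset.prod_filter_mul_prod_filter_not]
    exact hq

open Classical in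
/-- the approximating function with blocks in `J` -/
noncomputable def psi (J : Set ℕ) (q : ℕ) : ℝ :=
  if h : ∃ j, j ∈ J ∧ q ≠ 1 ∧ q ∣ NN j then (q : ℝ) / (NN h.choose : ℝ) else 0

theorem psi_nonneg (J : Set ℕ) (q : ℕ) : 0 ≤ psi J q := by
  unfold psi
  split_ifs
  · positivity
  · exact le_rfl

theorem psi_eq {J : Set ℕ} {j q : ℕ} (hj : j ∈ J) (hq : q ≠ 1) (hd : q ∣ NN j) :
    psi J q = (q : ℝ) / (NN j : ℝ) := by
  have h : ∃ j, j ∈ J ∧ q ≠ 1 ∧ q ∣ NN j := ⟨j, hj, hq, hd⟩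
  unfold psi
  rw [dif_pos h]
  have h1 : h.choose = j := div_block hq h.choose_spec.2.2 hd
  rw [h1]

theorem psi_pos {J : Set ℕ} {q : ℕ} (h : psi J q ≠ 0) : ∃ j, j ∈ J ∧ q ≠ 1 ∧ q ∣ NN j := by
  by_contra hc
  apply h
  unfold psi
  rw [dif_neg hc]

theorem not_summable_psi {J : Set ℕ} (hJ : J.Infinite) :
    ¬ Summable (fun q : ℕ => (Nat.totient q : ℝ) * psi J q / q) := by
  classical
  intro hs
  rw [summable_iff_vanishing_norm] at hs
  obtain ⟨s, hs⟩ := hs (1 / 2) (by norm_num)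
  obtain ⟨j, hjJ, hj⟩ := hJ.exists_gt (s.sup id)
  have h1 := hs ((NN j).divisors.erase 1) (by
    rw [Finset.disjoint_left]
    intro q hq hqs
    rw [Finset.mem_erase, Nat.mem_divisors] at hq
    have h2 := Nat.minFac_prime hq.1
    have h3 := prime_mem h2 ((Nat.minFac_dvd q).trans hq.2.1)
    have h4 := PP_ge h3
    have h5 : q ≤ s.sup id := Finset.le_sup (f := id) hqs
    have h6 : q.minFac ≤ q := Nat.minFac_le (Nat.pos_of_dvd_of_pos hq.2.1 (NN_pos j))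
    omega)
  have h2 : ∑ q ∈ (NN j).divisors.erase 1, (Nat.totient q : ℝ) * psi J q / q =
      ∑ q ∈ (NN j).divisors.erase 1, (Nat.totient q : ℝ) / (NN j : ℝ) := by
    refine Finset.sum_congr rfl fun q hq => ?_
    rw [Finset.mem_erase, Nat.mem_divisors] at hq
    rw [psi_eq hjJ hq.1 hq.2.1]
    have : (q : ℝ) ≠ 0 := by
      have := Nat.pos_of_dvd_of_pos hq.2.1 (NN_pos j)
      positivity
    field_simp
  have hNpos : (0 : ℝ) < NN j := by exact_mod_cast NN_pos j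
  have hN2 : (2 : ℝ) ≤ NN j := by exact_mod_cast two_le_NN j
  have h3 : ∑ q ∈ (NN j).divisors.erase 1, (Nat.totient q : ℝ) = (NN j : ℝ) - 1 := by
    have h4 := Finset.sum_erase_add (NN j).divisors (fun q => (Nat.totient q : ℝ))
      (Nat.one_mem_divisors.mpr (NN_pos j).ne')
    have h5 : ∑ q ∈ (NN j).divisors, (Nat.totient q : ℝ) = NN j := by
      rw [← Nat.cast_sum, Nat.sum_totient]
    rw [h5, Nat.totient_one] at h4
    push_cast at h4
    linarith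
  rw [h2, ← Finset.sum_div, h3, Real.norm_eq_abs, abs_of_nonneg (by
    apply div_nonneg _ hNpos.le
    linarith), div_lt_iff₀ hNpos] at h1
  linarith

/-- the good blocks for `γ` -/
def Good (γ : ℝ) : Set ℕ := {j | volume (U 1 (PP j) γ) ≤ ENNReal.ofReal (24 * (1 / 2) ^ j)}

theorem null_of_good {J : Set ℕ} {γ : ℝ} {n0 : ℕ} (hJ : ∀ j ∈ J, n0 ≤ j → j ∈ Good γ) :
    volume {x : ℝ | x ∈ Set.Icc (0 : ℝ) 1 ∧ ∃ᶠ q : ℕ in atTop,
      ∃ p : ℤ, IsCoprime p (q : ℤ) ∧ |(q : ℝ) * x - p - γ| ≤ psi J q} = 0 := by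
  classical
  have hnull1 : volume (Set.range fun z : ℤ × ℕ => ((z.1 : ℝ) + γ) / z.2) = 0 :=
    (Set.countable_range _).measure_zero _
  have hnull2 : volume {x : ℝ | ∃ᶠ j : ℕ in atTop, j ∈ Good γ ∧ x ∈ U 1 (PP j) γ} = 0 := by
    apply measure_setOfPred_frequently_eq_zero
    have h1 : ∑' j : ℕ, ENNReal.ofReal (24 * (1 / 2) ^ j) ≠ ⊤ :=
      ((summable_geometric_of_lt_one (by norm_num) (by norm_num :
        (1 / 2 : ℝ) < 1)).mul_left 24).tsum_ofReal_ne_top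
    refine ne_top_of_le_ne_top h1 (ENNReal.tsum_le_tsum fun j => ?_)
    by_cases hj : j ∈ Good γ
    · refine (measure_mono ?_).trans hj
      intro x hx
      exact hx.2
    · have : {x : ℝ | j ∈ Good γ ∧ x ∈ U 1 (PP j) γ} = ∅ := by
        ext x
        constructor
        · intro hx
          exact absurd hx.1 hj
        · intro hx
          exact absurd hx (Set.notMem_empty x)
      rw [this, measure_empty]
      exact zero_le
  refine measure_mono_null ?_ (measure_union_null hnull1 hnull2)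
  rintro x ⟨hx, hfreq⟩
  by_cases hxC : x ∈ Set.range fun z : ℤ × ℕ => ((z.1 : ℝ) + γ) / z.2
  · exact Or.inl hxC
  right
  change ∃ᶠ j : ℕ in atTop, j ∈ Good γ ∧ x ∈ U 1 (PP j) γ
  rw [Filter.frequently_atTop] at hfreq ⊢
  intro n
  obtain ⟨q, hq, p, hp, hqx⟩ := hfreq (∑ j ∈ Finset.range (n + n0), NN j + 1)
  have hq1 : 1 ≤ q := by omega
  have hqR : (0 : ℝ) < q := by exact_mod_cast hq1
  have hpsi : psi J q ≠ 0 := by
    intro h0
    rw [h0] at hqx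
    have h1 : (q : ℝ) * x - p - γ = 0 := abs_nonpos_iff.mp hqx
    apply hxC
    refine ⟨(p, q), ?_⟩
    simp only
    rw [div_eq_iff hqR.ne']
    linarith
  obtain ⟨j, hjJ, hqne, hqd⟩ := psi_pos hpsi
  have hjn : n + n0 ≤ j := by
    by_contra hlt
    push Not at hlt
    have h1 : NN j ≤ ∑ j ∈ Finset.range (n + n0), NN j :=
      Finset.single_le_sum (f := fun j => NN j) (fun _ _ => Nat.zero_le _) (Finset.mem_range.mpr hlt)
    have h2 : q ≤ NN j := Nat.le_of_dvd (NN_pos j) hqd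
    omega
  refine ⟨j, by omega, hJ j hjJ (by omega), hx, ?_⟩
  obtain ⟨T, hT, hTq⟩ := div_repr hqd
  refine ⟨T, hT, p, ?_, ?_⟩
  · rw [hTq]
    exact hp
  · rw [hTq, NN_cast, one_mul]
    rw [psi_eq hjJ hqne hqd] at hqx
    push_cast
    exact hqx

theorem exp_le (j : ℕ) : Real.exp (-(2 * j + 1 : ℝ)) ≤ (1 / 4) ^ j := by
  have h1 : (2 : ℝ) ≤ Real.exp 1 := by
    have := Real.add_one_le_exp (1 : ℝ)
    linarith
  have h2 : Real.exp (-(2 : ℝ)) ≤ 1 / 4 := by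
    rw [Real.exp_neg, ← one_div]
    apply one_div_le_one_div_of_le (by norm_num)
    have h3 : Real.exp 2 = Real.exp 1 * Real.exp 1 := by
      rw [← Real.exp_add]
      norm_num
    rw [h3]
    nlinarith
  calc Real.exp (-(2 * j + 1 : ℝ)) ≤ Real.exp (j * (-2)) := by
        apply Real.exp_le_exp.mpr
        linarith
    _ = Real.exp (-2) ^ j := Real.exp_nat_mul _ _
    _ ≤ (1 / 4) ^ j := pow_le_pow_left₀ (Real.exp_pos _).le h2 j

theorem rat_bound {g : ℤ} {v : ℕ} (hg : g ≠ 0) (hv : 1 ≤ v) {j : ℕ} (hj : v + g.natAbs < j) :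
    volume (U 2 (PP j) ((g : ℝ) / v)) ≤ ENNReal.ofReal (24 * (1 / 2) ^ j) := by
  have hbig : ∀ p ∈ PP j, v + g.natAbs < p := fun p hp => hj.trans_le (PP_ge hp)
  have h1 : ∀ p ∈ PP j, ¬ (p : ℤ) ∣ (v : ℤ) := by
    intro p hp hd
    have h2 : p ∣ v := by exact_mod_cast hd
    have h3 := Nat.le_of_dvd (by omega) h2
    have h4 := hbig p hp
    omega
  have h2 : ∀ p ∈ PP j, ¬ (p : ℤ) ∣ g := by
    intro p hp hd
    have h3 : p ∣ g.natAbs := Int.natCast_dvd.mp hd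
    have h4 := Nat.le_of_dvd (Int.natAbs_pos.mpr hg) h3
    have h5 := hbig p hp
    omega
  refine (volume_U (PP_prime j) hv h1 h2).trans (ENNReal.ofReal_le_ofReal ?_)
  have h3 : ∏ p ∈ PP j, (1 - (3 / 2 - Real.sqrt 2) / (p : ℝ)) ≤ (1 / 4) ^ j := by
    refine (exp_bound (PP_prime j)).trans (le_trans ?_ (exp_le j))
    apply Real.exp_le_exp.mpr
    have := PP_sum j
    linarith
  have h4 : (v : ℝ) ≤ 2 ^ j := by
    have h5 : v < 2 ^ j := (Nat.lt_two_pow_self (n := v)).trans_le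
      (Nat.pow_le_pow_right (by norm_num) (by omega))
    exact_mod_cast h5.le
  calc (24 * v : ℝ) * ∏ p ∈ PP j, (1 - (3 / 2 - Real.sqrt 2) / (p : ℝ))
      ≤ (24 * v : ℝ) * (1 / 4) ^ j := mul_le_mul_of_nonneg_left h3 (by positivity)
    _ ≤ (24 * 2 ^ j : ℝ) * (1 / 4) ^ j := by
        apply mul_le_mul_of_nonneg_right _ (by positivity)
        linarith
    _ = 24 * (1 / 2) ^ j := by
        rw [mul_assoc, ← mul_pow]
        norm_num

theorem U_mono {P : Finset ℕ} (hP : ∀ p ∈ P, p.Prime) {γ γ' : ℝ}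
    (h : |γ - γ'| ≤ 1 / (cT P : ℝ)) : U 1 P γ ⊆ U 2 P γ' := by
  rintro x ⟨hx, T, hT, p, hp, hpx⟩
  refine ⟨hx, T, hT, p, hp, ?_⟩
  have hq : 0 < cT (P \ T) := cT_pos fun t ht => hP t (Finset.mem_sdiff.mp ht).1
  have hN : 0 < cT P := cT_pos hP
  have hqR : (1 : ℝ) ≤ (cT (P \ T) : ℝ) := by exact_mod_cast hq
  have hNR : (0 : ℝ) < (cT P : ℝ) := by exact_mod_cast hN
  have h1 : (cT (P \ T) : ℝ) * x - p - γ' = ((cT (P \ T) : ℝ) * x - p - γ) + (γ - γ') := by ring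
  rw [h1]
  have h2 : 1 / (cT P : ℝ) ≤ (cT (P \ T) : ℝ) / (cT P : ℝ) :=
    div_le_div_of_nonneg_right hqR hNR.le
  have h3 := abs_add_le ((cT (P \ T) : ℝ) * x - p - γ) (γ - γ')
  linarith

theorem rat_form {γ : ℚ} (hγ : γ ≠ 0) : ∃ (g : ℤ) (v : ℕ), g ≠ 0 ∧ 1 ≤ v ∧ (γ : ℝ) = (g : ℝ) / v :=
  ⟨γ.num, γ.den, Rat.num_ne_zero.mpr hγ, γ.den_pos, by
    rw [Rat.cast_def]⟩

theorem rat_good {γ : ℚ} (hγ : γ ≠ 0) : ∃ n0, ∀ j, n0 ≤ j → j ∈ Good (γ : ℝ) := by
  obtain ⟨g, v, hg, hv, h⟩ := rat_form hγ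
  refine ⟨v + g.natAbs + 1, fun j hj => ?_⟩
  have h1 := rat_bound hg hv (j := j) (by omega)
  rw [← h] at h1
  refine le_trans (measure_mono (U_mono (PP_prime j) ?_)) h1
  rw [sub_self, abs_zero]
  have : (0 : ℝ) < (cT (PP j) : ℝ) := by exact_mod_cast cT_pos (PP_prime j)
  positivity

/-- the open dense sets -/
def GG (m : ℕ) : Set ℝ := ⋃ (γ : ℚ) (j : ℕ) (_ : m ≤ j ∧
    volume (U 2 (PP j) (γ : ℝ)) ≤ ENNReal.ofReal (24 * (1 / 2) ^ j)),
    Metric.ball (γ : ℝ) (1 / (cT (PP j) : ℝ))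

theorem GG_open (m : ℕ) : IsOpen (GG m) :=
  isOpen_iUnion fun _ => isOpen_iUnion fun _ => isOpen_iUnion fun _ => Metric.isOpen_ball

theorem GG_rat (m : ℕ) {γ : ℚ} (hγ : γ ≠ 0) : (γ : ℝ) ∈ GG m := by
  obtain ⟨g, v, hg, hv, h⟩ := rat_form hγ
  have h1 := rat_bound hg hv (j := v + g.natAbs + 1 + m) (by omega)
  rw [← h] at h1
  simp only [GG, Set.mem_iUnion]
  refine ⟨γ, v + g.natAbs + 1 + m, ⟨by omega, h1⟩, Metric.mem_ball_self ?_⟩
  have : (0 : ℝ) < (cT (PP (v + g.natAbs + 1 + m)) : ℝ) := by exact_mod_cast cT_pos (PP_prime _)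
  positivity

theorem GG_dense (m : ℕ) : Dense (GG m) := by
  have h1 : Dense (Set.range ((↑) : ℚ → ℝ) \ {0}) :=
    Rat.isDenseEmbedding_coe_real.dense.sdiff_singleton 0
  apply h1.mono
  rintro x ⟨⟨γ, rfl⟩, hx⟩
  apply GG_rat
  intro h
  apply hx
  rw [h]
  simp

theorem GG_good {γ : ℝ} (h : ∀ m, γ ∈ GG m) : (Good γ).Infinite := by
  rw [Set.infinite_iff_exists_gt]
  intro m
  have h1 := h (m + 1)
  simp only [GG, Set.mem_iUnion] at h1
  obtain ⟨γ', j, ⟨hj, hv⟩, hb⟩ := h1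
  refine ⟨j, ?_, by omega⟩
  refine le_trans (measure_mono (U_mono (PP_prime j) ?_)) hv
  rw [Metric.mem_ball, Real.dist_eq] at hb
  exact hb.le

theorem main : (∃ ψ : ℕ → ℝ, (∀ q, 0 ≤ ψ q) ∧
      ¬ Summable (fun q : ℕ => (Nat.totient q : ℝ) * ψ q / q) ∧
      ∀ γ : ℚ, γ ≠ 0 → volume {x : ℝ | x ∈ Set.Icc (0 : ℝ) 1 ∧ ∃ᶠ q : ℕ in atTop,
        ∃ p : ℤ, IsCoprime p (q : ℤ) ∧ |(q : ℝ) * x - p - γ| ≤ ψ q} = 0) ∧
    {γ : ℝ | ∃ ψ : ℕ → ℝ, (∀ q, 0 ≤ ψ q) ∧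
      ¬ Summable (fun q : ℕ => (Nat.totient q : ℝ) * ψ q / q) ∧
      volume {x : ℝ | x ∈ Set.Icc (0 : ℝ) 1 ∧ ∃ᶠ q : ℕ in atTop,
        ∃ p : ℤ, IsCoprime p (q : ℤ) ∧ |(q : ℝ) * x - p - γ| ≤ ψ q} = 0} ∈ residual ℝ := by
  constructor
  · refine ⟨psi Set.univ, psi_nonneg _, not_summable_psi Set.infinite_univ, ?_⟩
    intro γ hγ
    obtain ⟨n0, hn0⟩ := rat_good hγ
    exact null_of_good (n0 := n0) fun j _ hj => hn0 j hj
  · rw [mem_residual]
    refine ⟨⋂ m, GG m, ?_, IsGδ.iInter_of_isOpen GG_open,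
      dense_iInter_of_isOpen GG_open GG_dense⟩
    intro γ hγ
    rw [Set.mem_iInter] at hγ
    exact ⟨psi (Good γ), psi_nonneg _, not_summable_psi (GG_good hγ),
      null_of_good (n0 := 0) fun j hj _ => hj⟩

end Pool.Agent.H20.DS
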